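import Pool.Agent.helper19.MX.SpecD

set_option autoImplicit false

/-!
# Row AUT: automorphisms of elementary abelian covers
-/

namespace MX

open Pool.Agent.helper53.AU AN
open scoped Classical Topology

theorem AUT_two (k F : Type) [Field k] [Field F] [CharP k 2] [Algebra k F] : (2 : F) = 0 := by
  have h1 : ((2 : ℕ) : k) = 0 := CharP.cast_eq_zero k 2
  have h2 := congrArg (algebraMap k F) h1
  rw [map_natCast, map_zero] at h2
  exact_mod_cast h2

theorem AUT (hUNI : UNI_stmt) : AUT_stmt := by
  intro k F _ _ _ _ hperf x r y f hAS J
  have h2 : (2 : F) = 0 := AUT_two k F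
  obtain ⟨ψ, hx, hy⟩ := hUNI k F F hperf x r y f hAS x
    (fun j => y j + if j ∈ J then 1 else 0) hAS.tr (by
      intro j hj
      have := hAS.eq j hj
      show (y j + if j ∈ J then 1 else 0) ^ 2 + (y j + if j ∈ J then 1 else 0) = _
      split_ifs
      · linear_combination this + (y j + 1) * h2
      · linear_combination this)
  have hall : ∀ z : F, ψ (ψ z) = z := by
    intro z
    have hz : z ∈ IntermediateField.adjoin k ({x} ∪ y '' {j | j < r}) := by
      rw [hAS.gen]
      exact IntermediateField.mem_top
    induction hz using IntermediateField.adjoin_induction with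
    | mem s hs =>
      rcases hs with hs | ⟨j, hj, rfl⟩
      · rw [Set.mem_singleton_iff] at hs
        rw [hs, hx, hx]
      · rw [hy j hj]
        show ψ (y j + if j ∈ J then 1 else 0) = y j
        split_ifs
        · rw [map_add, map_one, hy j hj]
          split_ifs
          linear_combination h2
        · rw [add_zero, hy j hj]
          split_ifs
          rw [add_zero]
    | algebraMap c => rw [AlgHom.commutes, AlgHom.commutes]
    | add a b _ _ ha hb => rw [map_add, map_add, ha, hb]
    | inv a _ ha => rw [map_inv₀, map_inv₀, ha]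
    | mul a b _ _ ha hb => rw [map_mul, map_mul, ha, hb]
  exact ⟨AlgEquiv.ofAlgHom ψ ψ (AlgHom.ext hall) (AlgHom.ext hall), hx, hy, hall⟩

end MX
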